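import Pool.Graph.R_pool_sql_team_seeded_63374d34.N345.SDP.Main

set_option autoImplicit false
set_option linter.unusedSectionVars false

/-!
# Character sums over the code spanned by the differences of the blocks of a symmetric design
-/

namespace Pool.Agent.Helper23.BC

open Finset Pool.Agent.N345.Sym Pool.Agent.N345.SDP
open scoped Classical

variable {v : ℕ}

/-- the data: a symmetric design and an additive group `H` containing the differences of blocks,
and generated by them in the sense that it has no fixed coordinates and separates points -/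
structure Ctx (v k lam : ℕ) (B : Fin v → Finset (Fin v)) (H : AddSubgroup (Fin v → ZMod 2)) :
    Prop where
  des : Des v k lam B
  hlam : 1 ≤ lam
  kv : k + 2 ≤ v
  mem : ∀ i j, ind (B i) + ind (B j) ∈ H

/-- sum over the group of a product of signs which is not constant -/
theorem sum_zero (H : AddSubgroup (Fin v → ZMod 2)) (φ : (Fin v → ZMod 2) → ZMod 2)
    (hφ : ∀ g g', φ (g + g') = φ g + φ g') (hne : ∃ g ∈ H, φ g ≠ 0) :
    ∑ g ∈ Hs H, sg (φ g) = 0 := by
  obtain ⟨g0, hg0, hne⟩ := hne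
  have e3 : ∑ g ∈ Hs H, sg (φ g) = ∑ g ∈ Hs H, sg (φ (g + g0)) := by
    symm
    refine sum_nbij' (fun g => g + g0) (fun g => g + g0) ?_ ?_ ?_ ?_ ?_
    · intro g hg
      exact mem_Hs.2 (H.add_mem (mem_Hs.1 hg) hg0)
    · intro g hg
      exact mem_Hs.2 (H.add_mem (mem_Hs.1 hg) hg0)
    · intro g _
      rw [add_assoc, two_add, add_zero]
    · intro g _
      rw [add_assoc, two_add, add_zero]
    · intro g _
      rfl
  have e4 : ∑ g ∈ Hs H, sg (φ (g + g0)) = - ∑ g ∈ Hs H, sg (φ g) := by
    rw [← sum_neg_distrib]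
    refine sum_congr rfl fun g _ => ?_
    have h1 : sg (φ g0) = -1 := by
      rw [ne_zero_iff] at hne
      rw [hne]; decide
    rw [hφ, sg_add, h1]
    ring
  linarith

namespace Ctx

variable {k lam : ℕ} {B : Fin v → Finset (Fin v)} {H : AddSubgroup (Fin v → ZMod 2)}
  (c : Ctx v k lam B H)
include c

theorem v4 : 4 ≤ v := by
  have := c.des.two_le
  have := c.kv
  omega

theorem nofix (x : Fin v) : ∃ g ∈ H, g x ≠ 0 := by
  have h1 := c.des.rep c.hlam x
  have h2 := c.des.two_le
  have h3 := c.kv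
  obtain ⟨i, hi⟩ : ∃ i, x ∈ B i := by
    have : (univ.filter fun i => x ∈ B i).Nonempty := by
      rw [← card_pos]; omega
    obtain ⟨i, hi⟩ := this
    exact ⟨i, (mem_filter.1 hi).2⟩
  obtain ⟨j, hj⟩ : ∃ j, x ∉ B j := by
    by_contra hcon
    push Not at hcon
    have : (univ.filter fun i => x ∈ B i) = univ := by
      ext i; simp [hcon i]
    rw [this, card_univ, Fintype.card_fin] at h1
    omega
  refine ⟨_, c.mem i j, ?_⟩
  simp [ind, hi, hj]

theorem sep {x y : Fin v} (hxy : x ≠ y) : ∃ g ∈ H, g x ≠ g y := by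
  have h1 := c.des.rep c.hlam x
  have h2 := c.des.pair x y hxy
  have h3 := c.des.lam_lt c.hlam
  obtain ⟨i, hi, hi'⟩ : ∃ i, x ∈ B i ∧ y ∈ B i := by
    have : (univ.filter fun i => x ∈ B i ∧ y ∈ B i).Nonempty := by
      rw [← card_pos]; have := c.hlam; omega
    obtain ⟨i, hi⟩ := this
    exact ⟨i, (mem_filter.1 hi).2⟩
  obtain ⟨j, hj, hj'⟩ : ∃ j, x ∈ B j ∧ y ∉ B j := by
    by_contra hcon
    push Not at hcon
    have : (univ.filter fun i => x ∈ B i) = univ.filter fun i => x ∈ B i ∧ y ∈ B i := by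
      ext i
      simp only [mem_filter, mem_univ, true_and]
      exact ⟨fun h => ⟨h, hcon i h⟩, fun h => h.1⟩
    rw [this] at h1
    omega
  refine ⟨_, c.mem i j, ?_⟩
  have e1 : (ind (B i) + ind (B j)) x = 0 := by
    simp only [Pi.add_apply, ind, if_pos hi, if_pos hj]; decide
  have e2 : (ind (B i) + ind (B j)) y = 1 := by
    simp only [Pi.add_apply, ind, if_pos hi', if_neg hj', add_zero]
  rw [e1, e2]
  decide

theorem orth1 (x : Fin v) : ∑ g ∈ Hs H, sg (g x) = 0 :=
  sum_zero H (fun g => g x) (fun _ _ => rfl) (c.nofix x)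

theorem orth2 {x y : Fin v} (hxy : x ≠ y) : ∑ g ∈ Hs H, sg (g x) * sg (g y) = 0 := by
  have h1 := sum_zero H (fun g => g x + g y) (fun a b => by simp only [Pi.add_apply]; ring) (by
    obtain ⟨g, hg, hne⟩ := c.sep hxy
    refine ⟨g, hg, ?_⟩
    intro h
    apply hne
    generalize g x = a at h ⊢
    generalize g y = b at h ⊢
    revert a b; decide)
  simpa only [sg_add] using h1

/-- the linear term -/
theorem sum_S (w : Fin v → ZMod 2) : ∑ g ∈ Hs H, S (w + g) = 0 := by
  have e1 : ∀ g : Fin v → ZMod 2, S (w + g) = ∑ x, sg (w x) * sg (g x) := by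
    intro g
    rw [S]
    refine sum_congr rfl fun x _ => ?_
    rw [Pi.add_apply, sg_add]
  rw [sum_congr rfl (fun g _ => e1 g), sum_comm]
  refine sum_eq_zero fun x _ => ?_
  rw [← mul_sum, c.orth1 x, mul_zero]

/-- correlation -/
theorem sum_SS (w w' m : Fin v → ZMod 2) :
    ∑ g ∈ Hs H, S (w + g) * S (w' + (g + m)) = (Hs H).card * S (w + (w' + m)) := by
  have e1 : ∀ g : Fin v → ZMod 2, S (w + g) * S (w' + (g + m)) =
      ∑ x, ∑ y, (sg (w x) * sg (w' y) * sg (m y)) * (sg (g x) * sg (g y)) := by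
    intro g
    rw [S, S, sum_mul_sum]
    refine sum_congr rfl fun x _ => sum_congr rfl fun y _ => ?_
    simp only [Pi.add_apply, sg_add]
    ring
  rw [sum_congr rfl (fun g _ => e1 g), sum_comm]
  have e2 : ∀ x : Fin v, ∑ g ∈ Hs H, ∑ y, (sg (w x) * sg (w' y) * sg (m y)) *
      (sg (g x) * sg (g y)) = (Hs H).card * sg ((w + (w' + m)) x) := by
    intro x
    rw [sum_comm, sum_eq_single x]
    · rw [← mul_sum]
      simp only [sg_mul_self, sum_const, nsmul_eq_mul, mul_one, Pi.add_apply, sg_add]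
      ring
    · intro y _ hy
      rw [← mul_sum, c.orth2 hy.symm, mul_zero]
    · intro hx
      exact absurd (mem_univ x) hx
  rw [sum_congr rfl (fun x _ => e2 x), ← mul_sum]
  rfl

theorem S_block (i : Fin v) : S (ind (B i)) = (v : ℤ) - 2 * k := by
  have e2 : (∑ x : Fin v, (if x ∈ B i then (1 : ℤ) else 0)) = k := by
    rw [← c.des.size i]; simp
  unfold S
  rw [sum_congr rfl (fun x _ => sg_ind (B i) x), sum_sub_distrib, ← mul_sum, e2]
  simp

end Ctx

end Pool.Agent.Helper23.BC
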