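import Pool.Agent.Helper23.BC.Main

set_option autoImplicit false
set_option linter.unusedSectionVars false

/-!
# The case of equality
-/

namespace Pool.Agent.Helper23.BC

open Finset Pool.Agent.N345.Sym Pool.Agent.N345.SDP
open scoped Classical

variable {v : ℕ}

theorem S_eq_v {f : Fin v → ZMod 2} (h : S f = v) : f = 0 := by
  have h1 : ∑ x, (1 - sg (f x)) = 0 := by
    rw [sum_sub_distrib]
    simp only [sum_const, card_univ, Fintype.card_fin, nsmul_eq_mul, mul_one]
    unfold S at h
    rw [h]; ring
  rw [sum_eq_zero_iff_of_nonneg] at h1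
  · funext x
    have h2 := h1 x (mem_univ x)
    by_contra hne
    have h3 := (ne_zero_iff _).1 hne
    rw [h3] at h2
    revert h2; decide
  · intro x _
    rcases sg_cases (f x) with h2 | h2 <;> rw [h2] <;> norm_num

theorem S_eq_neg {f : Fin v → ZMod 2} (h : S f = -v) : f = 1 := by
  have h1 : S (f + 1) = v := by rw [S_add_one, h]; ring
  have h2 := S_eq_v h1
  have h3 : f + 1 + 1 = 0 + 1 := by rw [h2]
  rw [add_assoc, one_add_one', add_zero, zero_add] at h3
  exact h3

namespace Ctx

variable {k lam : ℕ} {B : Fin v → Finset (Fin v)} {H : AddSubgroup (Fin v → ZMod 2)}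
  (c : Ctx v k lam B H)
include c

theorem value (heq : (v : ℤ) + ((v : ℤ) - 2 * k) ^ 2 = (Hs H).card) (i0 : Fin v)
    {g : Fin v → ZMod 2} (hg : g ∈ Hs H) :
    ((v : ℤ) - 2 * k) * S (ind (B i0) + g) =
      -v + (if g ∈ Bs B i0 then ((Hs H).card : ℤ) else 0) := by
  by_cases h : g ∈ Bs B i0
  · rw [if_pos h, c.S_Bs h, ← heq]; ring
  · rw [if_neg h, add_zero]
    refine c.eq_case heq (mem_Hs.1 hg) ?_
    intro i hi
    apply h
    unfold Bs
    exact mem_image.2 ⟨i, mem_univ _, hi.symm⟩

/-- the deviation in the case of equality -/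
theorem dev_eq (heq : (v : ℤ) + ((v : ℤ) - 2 * k) ^ 2 = (Hs H).card) :
    (v : ℤ) - 4 * ((k : ℤ) - lam) = -1 ∨ (v : ℤ) - 4 * ((k : ℤ) - lam) = 0 := by
  have h3 := square c.des c.hlam
  have h4 := c.v4
  have hlk := c.des.lam_lt c.hlam
  set d := (v : ℤ) - 4 * ((k : ℤ) - lam) with hd
  set e := (v : ℤ) - 2 * k with he
  set i0 : Fin v := ⟨0, by omega⟩
  obtain ⟨x, y, hxy⟩ : ∃ x y : Fin v, x ≠ y := ⟨⟨0, by omega⟩, ⟨1, by omega⟩, by simp⟩
  set q : ℤ := ((Hs H).card : ℤ) with hq
  have hqpos : 0 < q := by
    rw [← heq]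
    have : (0 : ℤ) < v := by exact_mod_cast (by omega : 0 < v)
    positivity
  set T := ∑ g ∈ Hs H, S (ind (B i0) + g) * (sg (g x) * sg (g y)) with hT
  have e1 : e * T = q * ((sg (ind (B i0) x) * sg (ind (B i0) y)) * d) := by
    rw [hT, mul_sum]
    have : ∀ g ∈ Hs H, e * (S (ind (B i0) + g) * (sg (g x) * sg (g y))) =
        -v * (sg (g x) * sg (g y)) + (if g ∈ Bs B i0 then q * (sg (g x) * sg (g y)) else 0) := by
      intro g hg
      rw [← mul_assoc, he, c.value heq i0 hg]
      split_ifs <;> ring
    rw [sum_congr rfl this, sum_add_distrib, ← mul_sum, c.orth2 hxy, mul_zero, zero_add,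
      ← sum_filter]
    have hf : (Hs H).filter (fun g => g ∈ Bs B i0) = Bs B i0 := by
      ext g
      simp only [mem_filter, and_iff_right_iff_imp]
      exact fun h => c.Bs_sub i0 h
    rw [hf, ← mul_sum]
    congr 1
    unfold Bs
    rw [sum_image (fun i _ j _ hij => c.inj' _ hij), hd, ← dual c.des c.hlam hxy, mul_sum]
    refine sum_congr rfl fun i _ => ?_
    simp only [Pi.add_apply, sg_add]
    ring
  have e2 : T = 0 ∨ T = q ∨ T = -q := by
    have t1 : T = ∑ z, sg (ind (B i0) z) * ∑ g ∈ Hs H, sg (g z + g x + g y) := by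
      rw [hT]
      have : ∀ g : Fin v → ZMod 2, S (ind (B i0) + g) * (sg (g x) * sg (g y)) =
          ∑ z, sg (ind (B i0) z) * sg (g z + g x + g y) := by
        intro g
        rw [S, sum_mul]
        refine sum_congr rfl fun z _ => ?_
        simp only [Pi.add_apply, sg_add]
        ring
      rw [sum_congr rfl (fun g _ => this g), sum_comm]
      exact sum_congr rfl fun z _ => (mul_sum _ _ _).symm
    have hadd : ∀ z : Fin v, ∀ g g' : Fin v → ZMod 2,
        (g + g') z + (g + g') x + (g + g') y = (g z + g x + g y) + (g' z + g' x + g' y) := by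
      intro z g g'
      simp only [Pi.add_apply]; ring
    by_cases hz : ∃ z : Fin v, ∀ g ∈ H, g z + g x + g y = 0
    · obtain ⟨z, hz⟩ := hz
      right
      have t2 : T = sg (ind (B i0) z) * q := by
        rw [t1, sum_eq_single z]
        · congr 1
          rw [sum_congr rfl (g := fun _ => (1 : ℤ)), sum_const, nsmul_eq_mul, mul_one]
          intro g hg
          rw [hz g (mem_Hs.1 hg)]; decide
        · intro z' _ hne
          rw [sum_zero H (fun g => g z' + g x + g y) (hadd z'), mul_zero]
          obtain ⟨g, hg, hgz⟩ := c.sep hne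
          refine ⟨g, hg, ?_⟩
          intro h0
          apply hgz
          have := hz g hg
          have h5 := h0.trans this.symm
          exact add_right_cancel (add_right_cancel h5)
        · intro h
          exact absurd (mem_univ z) h
      rcases sg_cases (ind (B i0) z) with h5 | h5
      · left; rw [t2, h5, one_mul]
      · right; rw [t2, h5]; ring
    · push Not at hz
      left
      rw [t1]
      refine sum_eq_zero fun z _ => ?_
      rw [sum_zero H (fun g => g z + g x + g y) (hadd z) (hz z), mul_zero]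
  have e3 : (sg (ind (B i0) x) * sg (ind (B i0) y)) ^ 2 = 1 := by
    rcases sg_cases (ind (B i0) x) with h5 | h5 <;> rcases sg_cases (ind (B i0) y) with h6 | h6 <;>
      rw [h5, h6] <;> norm_num
  set s := sg (ind (B i0) x) * sg (ind (B i0) y) with hs
  have e4 : d = 0 ∨ d ^ 2 = e ^ 2 := by
    rcases e2 with h5 | h5 | h5
    · left
      rw [h5, mul_zero] at e1
      have : s * d = 0 := by
        rcases mul_eq_zero.1 e1.symm with h6 | h6
        · exact absurd h6 hqpos.ne'
        · exact h6
      have h7 : (s * d) ^ 2 = 0 := by rw [this]; ring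
      rw [mul_pow, e3, one_mul] at h7
      exact pow_eq_zero_iff two_ne_zero |>.1 h7
    · right
      rw [h5, mul_comm e q] at e1
      have := mul_left_cancel₀ hqpos.ne' e1
      rw [this, mul_pow, e3, one_mul]
    · right
      rw [h5] at e1
      have h6 : q * (-e) = q * (s * d) := by linarith
      have := mul_left_cancel₀ hqpos.ne' h6
      have h7 : (-e) ^ 2 = (s * d) ^ 2 := by rw [this]
      rw [mul_pow, e3, one_mul, neg_sq] at h7
      exact h7.symm
  rcases e4 with h5 | h5
  · exact Or.inr h5
  · left
    rw [h3] at h5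
    have h6 : (d + 1) * (d - v) = 0 := by linarith
    rcases mul_eq_zero.1 h6 with h7 | h7
    · linarith
    · exfalso
      have : (k : ℤ) = lam := by linarith
      have : k = lam := by exact_mod_cast this
      omega

theorem rep_sum (x : Fin v) : ∑ i, sg (ind (B i) x) = (v : ℤ) - 2 * k := by
  have e1 : (∑ i : Fin v, (if x ∈ B i then (1 : ℤ) else 0)) = k := by
    rw [← c.des.rep c.hlam x]; simp
  rw [sum_congr rfl (fun i _ => sg_ind (B i) x), sum_sub_distrib, ← mul_sum, e1]
  simp

/-- the whole coset in the case of equality -/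
theorem coset_eq (heq : (v : ℤ) + ((v : ℤ) - 2 * k) ^ 2 = (Hs H).card) (i0 : Fin v)
    {g : Fin v → ZMod 2} (hg : g ∈ H) :
    (∃ i, ind (B i0) + g = ind (B i)) ∨ (∃ i, ind (B i0) + g = ind (B i) + 1) ∨
      ind (B i0) + g = 0 ∨ ind (B i0) + g = 1 := by
  have h3 := square c.des c.hlam
  have h4 := c.v4
  have hdev := c.dev_eq heq
  have hval := fun (g : Fin v → ZMod 2) (hg : g ∈ Hs H) => c.value heq i0 hg
  set d := (v : ℤ) - 4 * ((k : ℤ) - lam) with hd
  set e := (v : ℤ) - 2 * k with he
  by_cases hB : g ∈ Bs B i0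
  · left
    unfold Bs at hB
    obtain ⟨i, -, hi⟩ := mem_image.1 hB
    exact ⟨i, by rw [← hi, cancel]⟩
  right
  rcases hdev with h5 | h5
  · right
    rw [h5] at h3
    have h6 : (e - 1) * (e + 1) = 0 := by linarith
    have h7 := hval g (mem_Hs.2 hg)
    rw [if_neg hB, add_zero] at h7
    rcases mul_eq_zero.1 h6 with h8 | h8
    · right
      have h9 : e = 1 := by linarith
      rw [h9, one_mul] at h7
      exact S_eq_neg h7
    · left
      have h9 : e = -1 := by linarith
      rw [h9] at h7
      exact S_eq_v (by linarith)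
  · left
    rw [h5] at h3
    have hv : (4 : ℤ) ≤ v := by exact_mod_cast h4
    have hq : ((Hs H).card : ℤ) = 2 * v := by rw [← heq, h3]; ring
    have hq' : (Hs H).card = 2 * v := by exact_mod_cast hq
    have he0 : e ≠ 0 := by
      intro h0
      rw [h0] at h3
      norm_num at h3
      linarith
    obtain ⟨m, hm, hm0, hms⟩ : ∃ m ∈ H, m ≠ 0 ∧ S m ≠ d := by
      by_contra hcon
      push Not at hcon
      have := (c.no_exc hcon).1
      rw [← hd, h5] at this
      norm_num at this
    set Bm : Finset (Fin v → ZMod 2) := (Bs B i0).image fun g => g + m with hBm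
    have hdisj : Disjoint (Bs B i0) Bm := by
      rw [disjoint_left]
      intro w hw hw'
      rw [hBm, mem_image] at hw'
      obtain ⟨w', hw', hww⟩ := hw'
      unfold Bs at hw hw'
      obtain ⟨i, -, hi⟩ := mem_image.1 hw
      obtain ⟨j, -, hj⟩ := mem_image.1 hw'
      have e1 : ind (B i) + ind (B j) = m := by
        have : m = w' + w := by rw [← hww, ← add_assoc, two_add, zero_add]
        rw [this, ← hi, ← hj]
        have : ind (B i0) + ind (B j) + (ind (B i0) + ind (B i)) =
            (ind (B i0) + ind (B i0)) + (ind (B i) + ind (B j)) := by abel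
        rw [this, two_add, zero_add]
      by_cases hij : i = j
      · subst hij
        rw [two_add] at e1
        exact hm0 e1.symm
      · apply hms
        rw [← e1]
        exact S_blocks c.des c.hlam hij
    have hsub : Bs B i0 ∪ Bm ⊆ Hs H := by
      refine union_subset (c.Bs_sub i0) ?_
      intro w hw
      rw [hBm, mem_image] at hw
      obtain ⟨w', hw', rfl⟩ := hw
      exact mem_Hs.2 (H.add_mem (mem_Hs.1 (c.Bs_sub i0 hw')) hm)
    have hcBm : Bm.card = v := by
      rw [hBm, card_image_of_injective _ (add_left_injective m), c.card_Bs]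
    have hun : Bs B i0 ∪ Bm = Hs H := by
      refine eq_of_subset_of_card_le hsub ?_
      rw [card_union_of_disjoint hdisj, c.card_Bs, hcBm, hq']
      omega
    have hm1 : m = 1 := by
      funext x
      have e1 := c.orth1 x
      rw [← hun, sum_union hdisj, hBm, sum_image (fun a _ b _ h => add_left_injective m h)] at e1
      unfold Bs at e1
      rw [sum_image (fun i _ j _ hij => c.inj' _ hij),
        sum_image (fun i _ j _ hij => c.inj' _ hij)] at e1
      simp only [Pi.add_apply, sg_add] at e1
      rw [← mul_sum, ← sum_mul, ← mul_sum, c.rep_sum x, ← he] at e1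
      have e2 : (sg (ind (B i0) x) * e) * (1 + sg (m x)) = 0 := by linarith
      rcases mul_eq_zero.1 e2 with e3 | e3
      · exfalso
        rcases mul_eq_zero.1 e3 with e4 | e4
        · rcases sg_cases (ind (B i0) x) with e5 | e5 <;> rw [e5] at e4 <;> norm_num at e4
        · exact he0 e4
      · have e4 : sg (m x) = -1 := by linarith
        rw [Pi.one_apply, ← ne_zero_iff]
        intro e5
        rw [e5] at e4
        revert e4; decide
    have hg' : g ∈ Bm := by
      have : g ∈ Bs B i0 ∪ Bm := by rw [hun]; exact mem_Hs.2 hg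
      rcases mem_union.1 this with h | h
      · exact absurd h hB
      · exact h
    rw [hBm, mem_image] at hg'
    obtain ⟨w, hw, rfl⟩ := hg'
    unfold Bs at hw
    obtain ⟨i, -, rfl⟩ := mem_image.1 hw
    refine ⟨i, ?_⟩
    rw [← add_assoc, cancel, hm1]

end Ctx

end Pool.Agent.Helper23.BC
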