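import Pool.Agent.Helper23.BC.Basic

set_option autoImplicit false
set_option linter.unusedSectionVars false

/-!
# The order of the code against the number of points
-/

namespace Pool.Agent.Helper23.BC

open Finset Pool.Agent.N345.Sym Pool.Agent.N345.SDP
open scoped Classical

variable {v : ℕ}

namespace Ctx

variable {k lam : ℕ} {B : Fin v → Finset (Fin v)} {H : AddSubgroup (Fin v → ZMod 2)}
  (c : Ctx v k lam B H)
include c

/-- the translate of the set of blocks -/
noncomputable def Bs (B : Fin v → Finset (Fin v)) (i0 : Fin v) : Finset (Fin v → ZMod 2) :=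
  univ.image fun i => ind (B i0) + ind (B i)

theorem inj' (w : Fin v → ZMod 2) : Function.Injective fun i => w + ind (B i) := by
  intro i j hij
  exact c.des.inj c.hlam (ind_inj (add_left_cancel hij))

theorem card_Bs (i0 : Fin v) : (Bs B i0).card = v := by
  unfold Bs
  rw [card_image_of_injective _ (c.inj' _), card_univ, Fintype.card_fin]

theorem Bs_sub (i0 : Fin v) : Bs B i0 ⊆ Hs H := by
  intro g hg
  unfold Bs at hg
  rw [mem_image] at hg
  obtain ⟨i, -, rfl⟩ := hg
  exact mem_Hs.2 (c.mem i0 i)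

omit c in
theorem cancel (w g : Fin v → ZMod 2) : w + (w + g) = g := by
  rw [← add_assoc, two_add, zero_add]

theorem S_Bs {i0 : Fin v} {g : Fin v → ZMod 2} (hg : g ∈ Bs B i0) :
    S (ind (B i0) + g) = (v : ℤ) - 2 * k := by
  unfold Bs at hg
  rw [mem_image] at hg
  obtain ⟨i, -, rfl⟩ := hg
  rw [cancel, c.S_block]

theorem sum_sqs (i0 : Fin v) :
    ∑ g ∈ Hs H, S (ind (B i0) + g) ^ 2 = (Hs H).card * v := by
  have h1 := c.sum_SS (ind (B i0)) (ind (B i0)) 0
  simp only [add_zero] at h1
  rw [two_add, S_zero] at h1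
  rw [← h1]
  exact sum_congr rfl fun g _ => sq _

/-- the sum over the complement of the blocks -/
theorem sum_compl (i0 : Fin v) :
    ∑ g ∈ Hs H \ Bs B i0, (((v : ℤ) - 2 * k) * S (ind (B i0) + g) + v) ^ 2 =
      v * (((v : ℤ) - 2 * k) ^ 2 + v) * ((Hs H).card - (((v : ℤ) - 2 * k) ^ 2 + v)) := by
  set e := (v : ℤ) - 2 * k with he
  have h1 := sum_sdiff (c.Bs_sub i0) (f := fun g => (e * S (ind (B i0) + g) + v) ^ 2)
  have h2 : ∑ g ∈ Bs B i0, (e * S (ind (B i0) + g) + v) ^ 2 = v * (e ^ 2 + v) ^ 2 := by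
    rw [sum_congr rfl (g := fun _ => (e ^ 2 + v) ^ 2), sum_const, c.card_Bs, nsmul_eq_mul]
    intro g hg
    rw [c.S_Bs hg, ← he]
    ring
  have h3 : ∑ g ∈ Hs H, (e * S (ind (B i0) + g) + v) ^ 2 = (Hs H).card * v * (e ^ 2 + v) := by
    have : ∀ g : Fin v → ZMod 2, (e * S (ind (B i0) + g) + v) ^ 2 =
        e ^ 2 * S (ind (B i0) + g) ^ 2 + (2 * e * v) * S (ind (B i0) + g) + v ^ 2 := by
      intro g; ring
    rw [sum_congr rfl (fun g _ => this g), sum_add_distrib, sum_add_distrib, ← mul_sum, ← mul_sum,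
      c.sum_sqs, c.sum_S, sum_const, nsmul_eq_mul]
    ring
  rw [h2, h3] at h1
  linarith

/-- the inequality -/
theorem ineq : (v : ℤ) + ((v : ℤ) - 2 * k) ^ 2 ≤ (Hs H).card := by
  have h4 := c.v4
  have h1 := c.sum_compl ⟨0, by omega⟩
  have h2 : 0 ≤ ∑ g ∈ Hs H \ Bs B ⟨0, by omega⟩,
      (((v : ℤ) - 2 * k) * S (ind (B ⟨0, by omega⟩) + g) + v) ^ 2 :=
    sum_nonneg fun g _ => sq_nonneg _
  rw [h1] at h2
  have h3 : 0 < (v : ℤ) * (((v : ℤ) - 2 * k) ^ 2 + v) := by
    have : (0 : ℤ) < v := by exact_mod_cast (by omega : 0 < v)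
    positivity
  have h5 := nonneg_of_mul_nonneg_right h2 h3
  linarith

/-- the case of equality -/
theorem eq_case (heq : (v : ℤ) + ((v : ℤ) - 2 * k) ^ 2 = (Hs H).card) {i0 : Fin v}
    {g : Fin v → ZMod 2} (hg : g ∈ H) (hgB : ∀ i, g ≠ ind (B i0) + ind (B i)) :
    ((v : ℤ) - 2 * k) * S (ind (B i0) + g) = -v := by
  have h1 := c.sum_compl i0
  have h2 : ((Hs H).card : ℤ) - (((v : ℤ) - 2 * k) ^ 2 + v) = 0 := by linarith
  rw [h2, mul_zero] at h1
  rw [sum_eq_zero_iff_of_nonneg fun g _ => sq_nonneg _] at h1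
  have h3 := h1 g (by
    rw [mem_sdiff]
    refine ⟨mem_Hs.2 hg, ?_⟩
    intro h
    unfold Bs at h
    rw [mem_image] at h
    obtain ⟨i, -, hi⟩ := h
    exact hgB i hi.symm)
  have h4 := pow_eq_zero_iff (two_ne_zero) |>.1 h3
  linarith

omit c in
theorem move {a b t t' : Fin v → ZMod 2} (h : a + t = b + t') : a + b = t + t' := by
  funext x
  have h1 := congrFun h x
  simp only [Pi.add_apply] at h1 ⊢
  generalize a x = p at *
  generalize b x = q at *
  generalize t x = r at *
  generalize t' x = s at *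
  revert p q r s
  decide

omit c in
theorem ite_xor (m : Fin v → ZMod 2) (a a' : Bool) :
    (if a = true then m else 0) + (if a' = true then m else 0) =
      if (xor a a') = true then m else 0 := by
  cases a <;> cases a' <;> simp [two_add]

/-- four disjoint translates -/
theorem no_triple (hq : (Hs H).card < 4 * v) {m1 m2 : Fin v → ZMod 2} (h1 : m1 ∈ H) (h2 : m2 ∈ H)
    (n1 : m1 ≠ 0) (n2 : m2 ≠ 0) (n12 : m1 ≠ m2)
    (s1 : S m1 ≠ (v : ℤ) - 4 * ((k : ℤ) - lam)) (s2 : S m2 ≠ (v : ℤ) - 4 * ((k : ℤ) - lam)) :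
    S (m1 + m2) = (v : ℤ) - 4 * ((k : ℤ) - lam) := by
  by_contra s12
  have h4 := c.v4
  set i0 : Fin v := ⟨0, by omega⟩
  let f : Fin v × Bool × Bool → (Fin v → ZMod 2) := fun p =>
    ind (B i0) + ind (B p.1) + ((if p.2.1 = true then m1 else 0) + (if p.2.2 = true then m2 else 0))
  have hdiff : ∀ u : Fin v → ZMod 2, u ≠ 0 → S u ≠ (v : ℤ) - 4 * ((k : ℤ) - lam) →
      ∀ i j, ind (B i) + ind (B j) ≠ u := by
    intro u hu hSu i j hij
    by_cases hne : i = j
    · subst hne
      rw [two_add] at hij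
      exact hu hij.symm
    · apply hSu
      rw [← hij]
      exact S_blocks c.des c.hlam hne
  have n3 : m1 + m2 ≠ 0 := by
    intro h
    apply n12
    have : m1 + m2 + m2 = 0 + m2 := by rw [h]
    rw [add_assoc, two_add, add_zero, zero_add] at this
    exact this
  have hinj : Function.Injective f := by
    rintro ⟨i, a, b⟩ ⟨j, a', b'⟩ hij
    simp only [f] at hij
    rw [add_assoc, add_assoc] at hij
    have key := move (add_left_cancel hij)
    rw [add_add_add_comm, ite_xor, ite_xor] at key
    have hxor : ∀ x y : Bool, xor x y = false → x = y := by decide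
    rcases ha : (xor a a') with _ | _ <;> rcases hb : (xor b b') with _ | _ <;>
      rw [ha, hb] at key <;>
      simp only [if_true, if_false, Bool.false_eq_true, add_zero, zero_add] at key
    · have e : ind (B i) = ind (B j) := by
        have := congrArg (fun w => w + ind (B j)) key
        simp only [add_assoc, two_add, add_zero, zero_add] at this
        exact this
      rw [c.des.inj c.hlam (ind_inj e), hxor _ _ ha, hxor _ _ hb]
    · exact absurd key (hdiff _ n2 s2 i j)
    · exact absurd key (hdiff _ n1 s1 i j)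
    · exact absurd key (hdiff _ n3 s12 i j)
  have hmem : ∀ p ∈ (univ : Finset (Fin v × Bool × Bool)), f p ∈ Hs H := by
    intro p _
    refine mem_Hs.2 (H.add_mem (c.mem _ _) (H.add_mem ?_ ?_))
    · split_ifs
      exacts [h1, H.zero_mem]
    · split_ifs
      exacts [h2, H.zero_mem]
  have h5 := card_le_card_of_injOn f (s := univ) (t := Hs H) hmem hinj.injOn
  rw [card_univ] at h5
  simp only [Fintype.card_prod, Fintype.card_fin, Fintype.card_bool] at h5
  omega

/-- the equation for the exceptional elements -/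
theorem exc (hq : (Hs H).card < 4 * v) {m : Fin v → ZMod 2} (hm : m ∈ H) (n : m ≠ 0)
    (s : S m ≠ (v : ℤ) - 4 * ((k : ℤ) - lam)) :
    (8 * ((k : ℤ) - lam) - (Hs H).card) * (S m - ((v : ℤ) - 4 * ((k : ℤ) - lam))) =
      (Hs H).card * (((v : ℤ) - 4 * ((k : ℤ) - lam)) * ((v : ℤ) - 4 * ((k : ℤ) - lam) + 1)) := by
  set d := (v : ℤ) - 4 * ((k : ℤ) - lam) with hd
  have e1 := c.sum_SS 0 0 m
  simp only [zero_add] at e1
  have e2 := c.sum_S 0
  simp only [zero_add] at e2
  have e3 := c.sum_S m
  have e4 : ∑ g ∈ Hs H, (S g - d) * (S (g + m) - d) = (Hs H).card * (S m + d ^ 2) := by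
    have : ∀ g : Fin v → ZMod 2, (S g - d) * (S (g + m) - d) =
        S g * S (g + m) - d * S g - d * S (m + g) + d ^ 2 := by
      intro g
      rw [add_comm m g]; ring
    rw [sum_congr rfl (fun g _ => this g), sum_add_distrib, sum_sub_distrib, sum_sub_distrib,
      ← mul_sum, ← mul_sum, e1, e2, e3, sum_const, nsmul_eq_mul]
    ring
  have e5 : ∑ g ∈ Hs H, (S g - d) * (S (g + m) - d) =
      ∑ g ∈ ({0, m} : Finset (Fin v → ZMod 2)), (S g - d) * (S (g + m) - d) := by
    symm
    refine sum_subset ?_ ?_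
    · intro g hg
      rw [mem_insert, mem_singleton] at hg
      rcases hg with rfl | rfl
      · exact mem_Hs.2 H.zero_mem
      · exact mem_Hs.2 hm
    · intro g hg hg'
      rw [mem_insert, mem_singleton, not_or] at hg'
      by_contra hne
      have a1 : S g ≠ d := fun h => hne (by rw [h]; ring)
      have a2 : S (g + m) ≠ d := fun h => hne (by rw [h]; ring)
      have a3 : g + m ≠ 0 := by
        intro h
        apply hg'.2
        have : g + m + m = 0 + m := by rw [h]
        rw [add_assoc, two_add, add_zero, zero_add] at this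
        exact this
      have a4 : g ≠ g + m := by
        intro h
        exact n (left_eq_add.1 h)
      have a5 := c.no_triple hq (mem_Hs.1 hg) (H.add_mem (mem_Hs.1 hg) hm) hg'.1 a3 a4 a1 a2
      rw [cancel] at a5
      exact s a5
  rw [sum_pair n.symm, zero_add, S_zero, two_add, S_zero] at e5
  rw [e5] at e4
  have e6 : (v : ℤ) = d + 4 * ((k : ℤ) - lam) := by rw [hd]; ring
  rw [e6] at e4
  linarith

/-- the deviation is at least `-1` -/
theorem dev : -1 ≤ (v : ℤ) - 4 * ((k : ℤ) - lam) := by
  have h1 := square c.des c.hlam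
  have h3 := c.v4
  set d := (v : ℤ) - 4 * ((k : ℤ) - lam) with hd
  have hv : (4 : ℤ) ≤ v := by exact_mod_cast h3
  by_contra hcon
  push Not at hcon
  nlinarith [sq_nonneg ((v : ℤ) - 2 * k)]

/-- no exceptional elements -/
theorem no_exc (h : ∀ m ∈ H, m ≠ 0 → S m = (v : ℤ) - 4 * ((k : ℤ) - lam)) :
    (v : ℤ) - 4 * ((k : ℤ) - lam) = -1 ∧ (Hs H).card = v + 1 := by
  have h1 := c.dev
  set d := (v : ℤ) - 4 * ((k : ℤ) - lam) with hd
  have e2 := c.sum_S 0
  simp only [zero_add] at e2
  have h0 : (0 : Fin v → ZMod 2) ∈ Hs H := mem_Hs.2 H.zero_mem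
  rw [← add_sum_erase _ _ h0, S_zero, sum_congr rfl (g := fun _ => d), sum_const,
    card_erase_of_mem h0, nsmul_eq_mul] at e2
  · have h4 := c.v4
    have h5 : 1 ≤ (Hs H).card := card_pos.2 ⟨0, h0⟩
    have h6 : (0 : ℤ) ≤ (((Hs H).card - 1 : ℕ) : ℤ) := Int.natCast_nonneg _
    have hd1 : d = -1 := by
      by_contra hne
      have : 0 ≤ d := by omega
      have := mul_nonneg h6 this
      have : (4 : ℤ) ≤ v := by exact_mod_cast h4
      linarith
    refine ⟨hd1, ?_⟩
    rw [hd1] at e2
    have : (((Hs H).card - 1 : ℕ) : ℤ) = v := by linarith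
    have : (Hs H).card - 1 = v := by exact_mod_cast this
    omega
  · intro m hm
    rw [mem_erase] at hm
    exact h m (mem_Hs.1 hm.2) hm.1

omit c in
theorem square_add_one {e : ℤ} {i : ℕ} (h : e ^ 2 = 2 ^ i + 1) : e ^ 2 = 9 := by
  have h1 : e.natAbs ^ 2 = 2 ^ i + 1 := by
    have : ((e.natAbs ^ 2 : ℕ) : ℤ) = ((2 ^ i + 1 : ℕ) : ℤ) := by
      push_cast
      rw [sq_abs, h]
    exact_mod_cast this
  have h2 : e ^ 2 = ((e.natAbs ^ 2 : ℕ) : ℤ) := by push_cast; rw [sq_abs]
  rw [h2]
  generalize e.natAbs = a at *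
  obtain ⟨b, rfl⟩ : ∃ b, a = b + 2 := by
    refine ⟨a - 2, ?_⟩
    have : 0 < 2 ^ i := by positivity
    have : 2 ≤ a ^ 2 := by omega
    have : 2 ≤ a := by
      by_contra hcon
      have : a ≤ 1 := by omega
      have : a ^ 2 ≤ 1 ^ 2 := Nat.pow_le_pow_left this 2
      omega
    omega
  have h3 : (b + 1) * (b + 3) = 2 ^ i := by nlinarith
  obtain ⟨j, -, hj⟩ := (Nat.dvd_prime_pow Nat.prime_two).1 (Dvd.intro _ h3)
  obtain ⟨l, -, hl⟩ := (Nat.dvd_prime_pow Nat.prime_two).1 (Dvd.intro_left _ h3)
  have h4 : 2 ^ l = 2 ^ j + 2 := by omega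
  have h5 : j = 1 := by
    rcases j with _ | _ | j
    · rcases l with _ | _ | l
      · norm_num at h4
      · norm_num at h4
      · rw [pow_add] at h4; omega
    · rfl
    · rcases l with _ | _ | l
      · rw [pow_add, pow_add] at h4; omega
      · rw [pow_add, pow_add] at h4; omega
      · rw [pow_add, pow_add, pow_add, pow_add] at h4; omega
  rw [h5] at hj
  have : b = 1 := by omega
  subst this
  norm_num

/-- the possible orders -/
theorem orders {D : ℕ} (hD : (Hs H).card = 2 ^ D) (hq : (Hs H).card ≤ 4 * v) :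
    ((v : ℤ) - 4 * ((k : ℤ) - lam) = -1 ∧ ((Hs H).card = v + 1 ∨ (Hs H).card = 2 * (v + 1))) ∨
    ((v : ℤ) - 4 * ((k : ℤ) - lam) = 0 ∧ ((Hs H).card = 2 * v ∨ (Hs H).card = 4 * v)) := by
  have h1 := c.dev
  have h2 := c.ineq
  have h3 := square c.des c.hlam
  have h4 := c.v4
  have h7 : v ≠ 5 ∧ v ≠ 4 := by
    have a1 := c.des.count c.hlam
    have a2 := c.des.two_le
    have a3 := c.kv
    constructor
    · rintro rfl
      have : k = 2 ∨ k = 3 := by omega
      rcases this with rfl | rfl <;> omega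
    · rintro rfl
      have : k = 2 := by omega
      subst this
      omega
  set n := (k : ℤ) - lam with hn
  set d := (v : ℤ) - 4 * n with hd
  have hv : (4 : ℤ) ≤ v := by exact_mod_cast h4
  rw [h3] at h2
  have hq' : ((Hs H).card : ℤ) ≤ 4 * v := by exact_mod_cast hq
  -- the deviation is at most `2`
  have hd2 : d ≤ 2 := by
    by_contra hcon
    push Not at hcon
    nlinarith
  have hD3 : 3 ≤ D := by
    by_contra hcon
    have : 2 ^ D ≤ 2 ^ 2 := Nat.pow_le_pow_right (by norm_num) (by omega)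
    rw [← hD] at this
    have : (Hs H).card ≤ 4 := by simpa using this
    have : ((Hs H).card : ℤ) ≤ 4 := by exact_mod_cast this
    nlinarith
  have h8 : (8 : ℤ) ∣ (Hs H).card := by
    rw [hD]
    push_cast
    exact ⟨2 ^ (D - 3), by rw [show (8 : ℤ) = 2 ^ 3 by norm_num, ← pow_add]; congr 1; omega⟩
  set q : ℤ := ((Hs H).card : ℤ) with hqdef
  rcases hq.lt_or_eq with hlt | heq
  · by_cases hM : ∀ m ∈ H, m ≠ 0 → S m = d
    · obtain ⟨a1, a2⟩ := c.no_exc hM
      exact Or.inl ⟨a1, Or.inl a2⟩
    · push Not at hM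
      obtain ⟨m, hm, hm0, hms⟩ := hM
      have he := c.exc hlt hm hm0 hms
      rw [← hn, ← hd, ← hqdef] at he
      have hne : S m - d ≠ 0 := fun h => hms (by linarith)
      have hd3 : d = -1 ∨ d = 0 ∨ d = 1 ∨ d = 2 := by omega
      rcases hd3 with hd' | hd' | hd' | hd'
      · left
        refine ⟨hd', Or.inr ?_⟩
        rw [hd'] at he
        have : (8 * n - q) * (S m - -1) = 0 := by rw [he]; ring
        rcases mul_eq_zero.1 this with h | h
        · have : q = 2 * (v + 1) := by linarith
          rw [hqdef] at this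
          exact_mod_cast this
        · exact absurd (by rw [hd']; exact h) hne
      · right
        refine ⟨hd', Or.inl ?_⟩
        rw [hd'] at he
        have : (8 * n - q) * (S m - 0) = 0 := by rw [he]; ring
        rcases mul_eq_zero.1 this with h | h
        · have : q = 2 * v := by linarith
          rw [hqdef] at this
          exact_mod_cast this
        · exact absurd (by rw [hd']; exact h) hne
      · exfalso
        rw [hd'] at he h2
        have h8n : 8 * n = 2 * v - 2 := by linarith
        have e1 : (q - 2 * v + 2) * (1 - S m) = 2 * q := by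
          rw [h8n] at he; linarith
        have e2 : q - 2 * v + 2 ∣ 2 ^ (D + 1) := by
          refine ⟨1 - S m, ?_⟩
          rw [e1, hqdef, hD]
          push_cast
          ring
        have e3 : ∃ i, (q - 2 * v + 2).natAbs = 2 ^ i ∧ i ≤ D + 1 := by
          have := Int.natAbs_dvd_natAbs.2 e2
          rw [Int.natAbs_pow] at this
          obtain ⟨i, hi, hi'⟩ := (Nat.dvd_prime_pow Nat.prime_two).1 this
          exact ⟨i, hi', hi⟩
        obtain ⟨i, hi, -⟩ := e3
        have hqlt : q < 4 * v := by rw [hqdef]; exact_mod_cast hlt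
        have hpos : 0 < q - 2 * v + 2 := by linarith
        have e4 : q - 2 * v + 2 = 2 ^ i := by
          have : ((q - 2 * v + 2).natAbs : ℤ) = q - 2 * v + 2 := Int.natAbs_of_nonneg hpos.le
          rw [← this, hi]; push_cast; ring
        have hqD : q = 2 ^ D := by rw [hqdef, hD]; push_cast; ring
        have e5 : i ≤ D - 1 := by
          by_contra hcon
          have : (2 : ℤ) ^ D ≤ 2 ^ i := pow_le_pow_right₀ (by norm_num) (by omega)
          rw [← hqD, ← e4] at this
          linarith
        have e6 : D - 1 ≤ i := by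
          by_contra hcon
          have : (2 : ℤ) ^ i * 4 ≤ 2 ^ D := by
            have h9 : (2 : ℤ) ^ i * 4 = 2 ^ (i + 2) := by rw [pow_add]; norm_num
            rw [h9]
            exact pow_le_pow_right₀ (by norm_num) (by omega)
          rw [← hqD, ← e4] at this
          linarith
        have e7 : i = D - 1 := le_antisymm e5 e6
        have e8 : q = 2 * 2 ^ i := by
          rw [hqD, e7, ← pow_succ']
          congr 1; omega
        have e9 : q = 4 * v - 4 := by linarith
        -- the square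
        have e10 : ((v : ℤ) - 2 * k) ^ 2 = 2 ^ i + 1 := by
          rw [h3, hd']
          linarith
        have e11 := square_add_one e10
        have : (v : ℤ) = 5 := by
          rw [h3, hd'] at e11
          linarith
        exact h7.1 (by exact_mod_cast this)
      · exfalso
        rw [hd'] at h2
        have hqlt : q < 4 * v := by rw [hqdef]; exact_mod_cast hlt
        omega
  · right
    have e1 : q = 4 * v := by rw [hqdef, heq]; push_cast; ring
    have e2 : d = 0 := by
      have e3 : (4 : ℤ) ∣ v := by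
        have hqD : q = 2 ^ D := by rw [hqdef, hD]; push_cast; ring
        have hD4 : 4 ≤ D := by
          by_contra hcon
          have : (2 : ℤ) ^ D ≤ 2 ^ 3 := pow_le_pow_right₀ (by norm_num) (by omega)
          rw [← hqD, e1] at this
          linarith
        have e4 : (4 : ℤ) * v = 4 * (4 * 2 ^ (D - 4)) := by
          rw [← e1, hqD, show (4 : ℤ) * (4 * 2 ^ (D - 4)) = 2 ^ 4 * 2 ^ (D - 4) by ring, ← pow_add]
          congr 1; omega
        exact ⟨2 ^ (D - 4), by linarith⟩
      omega
    exact ⟨e2, Or.inr heq⟩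

end Ctx

end Pool.Agent.Helper23.BC
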