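import Pool.Agent.Helper23.BC.Equality

set_option autoImplicit false
set_option linter.unusedSectionVars false

/-!
# The parameters
-/

namespace Pool.Agent.Helper23.BC

open Finset Pool.Agent.N345.Sym Pool.Agent.N345.SDP
open scoped Classical

variable {v : ℕ}

theorem arith_proj {v k lam m : ℕ} (h1 : (v : ℤ) - 4 * ((k : ℤ) - lam) = -1)
    (h2 : ((v : ℤ) - 2 * k) ^ 2 = 1) (h3 : v + 1 = 4 * 2 ^ m) :
    v = 4 * 2 ^ m - 1 ∧ ((k = 2 * 2 ^ m - 1 ∧ lam = 2 ^ m - 1) ∨ (k = 2 * 2 ^ m ∧ lam = 2 ^ m)) := by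
  have h4 : (((v : ℤ) - 2 * k) - 1) * (((v : ℤ) - 2 * k) + 1) = 0 := by linarith
  have h5 : 0 < 2 ^ m := by positivity
  refine ⟨by omega, ?_⟩
  generalize 2 ^ m = M at *
  rcases mul_eq_zero.1 h4 with h | h
  · left
    omega
  · right
    omega

theorem sq_two_pow {e : ℤ} {j : ℕ} (h : e ^ 2 = 2 ^ j) :
    ∃ i, j = 2 * i ∧ (e = 2 ^ i ∨ e = -2 ^ i) := by
  have h1 : e.natAbs ^ 2 = 2 ^ j := by
    have : ((e.natAbs ^ 2 : ℕ) : ℤ) = ((2 ^ j : ℕ) : ℤ) := by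
      push_cast
      rw [sq_abs, h]
    exact_mod_cast this
  obtain ⟨i, -, hi⟩ := (Nat.dvd_prime_pow Nat.prime_two).1
    (show e.natAbs ∣ 2 ^ j from h1 ▸ dvd_pow_self _ two_ne_zero)
  refine ⟨i, ?_, ?_⟩
  · rw [hi, ← pow_mul] at h1
    have := Nat.pow_right_injective le_rfl h1
    omega
  · rcases Int.natAbs_eq e with h2 | h2
    · left; rw [h2, hi]; push_cast; ring
    · right; rw [h2, hi]; push_cast; ring

theorem arith_menon {v k lam j : ℕ} (hv : 4 < v) (h1 : (v : ℤ) - 4 * ((k : ℤ) - lam) = 0)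
    (h2 : ((v : ℤ) - 2 * k) ^ 2 = v) (h3 : v = 2 ^ j) :
    ∃ m, 1 ≤ m ∧ j = 2 * m + 2 ∧ v = 4 ^ (m + 1) ∧
      ((k = 2 * 4 ^ m - 2 ^ m ∧ lam = 4 ^ m - 2 ^ m) ∨ (k = 2 * 4 ^ m + 2 ^ m ∧ lam = 4 ^ m + 2 ^ m)) := by
  have h4 : ((v : ℤ) - 2 * k) ^ 2 = 2 ^ j := by
    rw [h2]; exact_mod_cast h3
  obtain ⟨i, hi, he⟩ := sq_two_pow h4
  have hi2 : 2 ≤ i := by
    by_contra hcon
    have : i ≤ 1 := by omega
    have : 2 ^ j ≤ 2 ^ 2 := Nat.pow_le_pow_right (by norm_num) (by omega)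
    rw [← h3] at this
    omega
  obtain ⟨m, rfl⟩ : ∃ m, i = m + 1 := ⟨i - 1, by omega⟩
  refine ⟨m, by omega, by omega, ?_, ?_⟩
  · rw [h3, hi, pow_mul]; norm_num
  · have e1 : (v : ℤ) = 4 * 4 ^ m := by
      have : v = 4 * 4 ^ m := by
        rw [h3, hi, pow_mul]; norm_num [pow_succ]; ring
      exact_mod_cast this
    have e2 : (2 : ℤ) ^ (m + 1) = 2 * 2 ^ m := by rw [pow_succ]; ring
    have e3 : (2 : ℕ) ^ m ≤ 4 ^ m := Nat.pow_le_pow_left (by norm_num) m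
    rw [e2] at he
    have e4 : ((2 ^ m : ℕ) : ℤ) = 2 ^ m := by push_cast; rfl
    have e5 : ((4 ^ m : ℕ) : ℤ) = 4 ^ m := by push_cast; rfl
    rw [← e4] at he
    rw [← e5] at e1
    generalize (2 ^ m : ℕ) = M at *
    generalize (4 ^ m : ℕ) = N at *
    rcases he with he | he
    · left
      omega
    · right
      omega

theorem eq_proj {v k lam m : ℕ} (h1 : v = 4 * 2 ^ m - 1)
    (h2 : (k = 2 * 2 ^ m - 1 ∧ lam = 2 ^ m - 1) ∨ (k = 2 * 2 ^ m ∧ lam = 2 ^ m)) :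
    (v : ℤ) + ((v : ℤ) - 2 * k) ^ 2 = 2 ^ (m + 2) := by
  have h3 : (0 : ℕ) < 2 ^ m := by positivity
  have h4 : (v : ℤ) + 1 = 4 * 2 ^ m := by
    have : v + 1 = 4 * 2 ^ m := by omega
    exact_mod_cast this
  have h5 : (v : ℤ) - 2 * k = 1 ∨ (v : ℤ) - 2 * k = -1 := by
    generalize (2 ^ m : ℕ) = M at *
    omega
  have h6 : ((v : ℤ) - 2 * k) ^ 2 = 1 := by
    rcases h5 with h5 | h5 <;> rw [h5] <;> norm_num
  rw [h6, pow_add, h4]; ring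

theorem eq_sdp {v k lam m : ℕ} (h1 : v = 4 ^ (m + 1))
    (h2 : (k = 2 * 4 ^ m - 2 ^ m ∧ lam = 4 ^ m - 2 ^ m) ∨
      (k = 2 * 4 ^ m + 2 ^ m ∧ lam = 4 ^ m + 2 ^ m)) :
    (v : ℤ) + ((v : ℤ) - 2 * k) ^ 2 = 2 ^ (2 * m + 3) := by
  have h3 : (2 : ℕ) ^ m ≤ 4 ^ m := Nat.pow_le_pow_left (by norm_num) m
  have h7 : v = 4 * 4 ^ m := by rw [h1, pow_succ]; ring
  have h4 : (v : ℤ) = 4 * 4 ^ m := by exact_mod_cast h7
  have h5 : (v : ℤ) - 2 * k = 2 * ((2 ^ m : ℕ) : ℤ) ∨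
      (v : ℤ) - 2 * k = -(2 * ((2 ^ m : ℕ) : ℤ)) := by
    clear h1 h4
    generalize (2 ^ m : ℕ) = M at *
    generalize (4 ^ m : ℕ) = N at *
    omega
  have h6 : ((v : ℤ) - 2 * k) ^ 2 = 4 * 4 ^ m := by
    have h8 : (4 : ℤ) ^ m = 2 ^ m * 2 ^ m := by rw [← mul_pow]; norm_num
    rcases h5 with h5 | h5 <;> rw [h5, h8] <;> push_cast <;> ring
  have h9 : (2 : ℤ) ^ (2 * m + 3) = 8 * 4 ^ m := by
    rw [pow_add, pow_mul]; norm_num; ring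
  rw [h6, h9, h4]; ring

end Pool.Agent.Helper23.BC
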